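import Mathlib

namespace Pool.Agent.Results.MP_4f7bfc_co.InteriorVertex

open Set

/-- The lattice `A ℤⁿ` of all integer combinations of the columns of the real matrix `A`. -/
def Lat {n : ℕ} (A : Matrix (Fin n) (Fin n) ℝ) : Set (Fin n → ℝ) :=
  {x | ∃ z : Fin n → ℤ, x = A.mulVec (fun i => (z i : ℝ))}

/-- `K` is a lattice covering body for `L`: compact, convex and `K + L` is the whole space. -/
def IsCoveringBody {n : ℕ} (L K : Set (Fin n → ℝ)) : Prop :=
  IsCompact K ∧ Convex ℝ K ∧ ∀ y, ∃ k ∈ K, ∃ v ∈ L, k + v = y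

/-- `K` is a minimal covering body for `L`: no covering body is properly contained in `K`. -/
def IsMinimalCoveringBody {n : ℕ} (L K : Set (Fin n → ℝ)) : Prop :=
  IsCoveringBody L K ∧ ∀ K', IsCoveringBody L K' → K' ⊆ K → K' = K

/-- Every covering body contains a minimal one (for a closed set `L`). -/
lemma exists_minimal {n : ℕ} {L K0 : Set (Fin n → ℝ)} (hL : IsClosed L)
    (h0 : IsCoveringBody L K0) : ∃ K, K ⊆ K0 ∧ IsMinimalCoveringBody L K := by
  obtain ⟨K, hK0, hmin⟩ := zorn_superset_nonempty {K | IsCoveringBody L K} (by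
    intro c hc hchain hne
    refine ⟨⋂₀ c, ?_, fun s hs => sInter_subset_of_mem hs⟩
    obtain ⟨K1, hK1⟩ := hne
    refine ⟨?_, convex_sInter fun s hs => (hc hs).2.1, ?_⟩
    · exact (hc hK1).1.of_isClosed_subset
        (isClosed_sInter fun s hs => (hc hs).1.isClosed) (sInter_subset_of_mem hK1)
    · intro y
      have hcl : IsClosed {k : Fin n → ℝ | y - k ∈ L} :=
        hL.preimage (continuous_const.sub continuous_id)
      have : Nonempty c := ⟨⟨K1, hK1⟩⟩
      have := IsCompact.nonempty_iInter_of_directed_nonempty_isCompact_isClosed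
        (fun K : c => (K : Set (Fin n → ℝ)) ∩ {k | y - k ∈ L}) (by
          intro a b
          rcases hchain.total a.2 b.2 with h | h
          · exact ⟨a, subset_rfl, inter_subset_inter_left _ h⟩
          · exact ⟨b, inter_subset_inter_left _ h, subset_rfl⟩)
        (by
          intro K
          obtain ⟨k, hk, v, hv, e⟩ := (hc K.2).2.2 y
          exact ⟨k, hk, by simpa [← e] using hv⟩)
        (fun K => (hc K.2).1.inter_right hcl)
        (fun K => (hc K.2).1.isClosed.inter hcl)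
      obtain ⟨k, hk⟩ := this
      rw [mem_iInter] at hk
      refine ⟨k, ?_, y - k, (hk ⟨K1, hK1⟩).2, by abel⟩
      exact mem_sInter.2 fun s hs => (hk ⟨s, hs⟩).1) K0 h0
  refine ⟨K, hK0, hmin.prop, ?_⟩
  intro K' hK' hsub
  exact subset_antisymm hsub (hmin.le_of_le hK' hsub)

/-- A point covered only by itself lies in every smaller covering body. -/
lemma mem_of_unique {n : ℕ} {L K K0 : Set (Fin n → ℝ)} (hK : IsCoveringBody L K) (hsub : K ⊆ K0)
    {q : Fin n → ℝ} (hu : ∀ v ∈ L, q - v ∈ K0 → v = 0) : q ∈ K := by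
  obtain ⟨k, hk, v, hv, e⟩ := hK.2.2 q
  have h1 : q - v ∈ K0 := by
    rw [← e]; simpa using hsub hk
  have h2 := hu v hv h1
  rw [h2, add_zero] at e
  exact e ▸ hk

/-- The lattice of the example: integer vectors with `z₀ + 20 z₁ + 47 z₂ + 63 z₃ ≡ 0 mod 72`. -/
def LZ : Set (Fin 4 → ℝ) :=
  {x | ∃ z : Fin 4 → ℤ, (72 : ℤ) ∣ z 0 + 20 * z 1 + 47 * z 2 + 63 * z 3 ∧
    x = fun i => (z i : ℝ)}

/-- A basis matrix of this lattice. -/
def A : Matrix (Fin 4) (Fin 4) ℝ := !![72, -20, -47, -63; 0, 1, 0, 0; 0, 0, 1, 0; 0, 0, 0, 1]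

lemma det_A : A.det = 72 := by
  rw [Matrix.det_of_isUpperTriangular]
  · simp [A, Fin.prod_univ_succ]
  · intro i j hij
    fin_cases i <;> fin_cases j <;> simp [A] at hij ⊢

lemma Lat_A : Lat A = LZ := by
  ext x
  constructor
  · rintro ⟨z, rfl⟩
    refine ⟨![72 * z 0 - 20 * z 1 - 47 * z 2 - 63 * z 3, z 1, z 2, z 3], ?_, ?_⟩
    · refine ⟨z 0, ?_⟩
      simp
      ring
    · ext i
      (fin_cases i <;> simp [A, Matrix.mulVec, dotProduct, Fin.sum_univ_succ]); ring
  · rintro ⟨z, ⟨k, hk⟩, rfl⟩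
    refine ⟨![k, z 1, z 2, z 3], ?_⟩
    have h0 : (z 0 : ℝ) = 72 * k - 20 * z 1 - 47 * z 2 - 63 * z 3 := by
      have : z 0 = 72 * k - 20 * z 1 - 47 * z 2 - 63 * z 3 := by linarith
      exact_mod_cast this
    ext i
    fin_cases i
    · simp [A, Matrix.mulVec, dotProduct, Fin.sum_univ_succ, h0]; ring
    · simp [A, Matrix.mulVec, dotProduct, Fin.sum_univ_succ]
    · simp [A, Matrix.mulVec, dotProduct, Fin.sum_univ_succ]
    · simp [A, Matrix.mulVec, dotProduct, Fin.sum_univ_succ]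

lemma isClosed_LZ : IsClosed LZ := by
  have hemb : Topology.IsClosedEmbedding (fun (z : Fin 4 → ℤ) (i : Fin 4) => (z i : ℝ)) := by
    have := Topology.IsClosedEmbedding.piMap (fun _ : Fin 4 => Int.isClosedEmbedding_coe_real)
    exact this
  have : LZ = (fun (z : Fin 4 → ℤ) (i : Fin 4) => (z i : ℝ)) ''
      {z | (72 : ℤ) ∣ z 0 + 20 * z 1 + 47 * z 2 + 63 * z 3} := by
    ext x
    constructor
    · rintro ⟨z, hz, rfl⟩; exact ⟨z, hz, rfl⟩
    · rintro ⟨z, hz, rfl⟩; exact ⟨z, hz, rfl⟩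
  rw [this]
  exact hemb.isClosedMap _ (isClosed_discrete _)

/-- The simplex `{y ≥ 0, y₀ + y₁ + y₂ + y₃ ≤ 9}`. -/
def K0 : Set (Fin 4 → ℝ) := {y | (∀ i, 0 ≤ y i) ∧ y 0 + y 1 + y 2 + y 3 ≤ 9}

lemma convex_K0 : Convex ℝ K0 := by
  rintro x ⟨hx, hx'⟩ y ⟨hy, hy'⟩ a b ha hb hab
  refine ⟨fun i => ?_, ?_⟩
  · have := mul_nonneg ha (hx i); have := mul_nonneg hb (hy i)
    simp only [Pi.add_apply, Pi.smul_apply, smul_eq_mul]; linarith
  · simp only [Pi.add_apply, Pi.smul_apply, smul_eq_mul]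
    have h1 := mul_le_mul_of_nonneg_left hx' ha
    have h2 := mul_le_mul_of_nonneg_left hy' hb
    have h3 : a * 9 + b * 9 = 9 := by rw [← add_mul, hab]; norm_num
    linarith

lemma isCompact_K0 : IsCompact K0 := by
  have hcl : IsClosed K0 := by
    have h1 : IsClosed {y : Fin 4 → ℝ | ∀ i, 0 ≤ y i} := by
      have : {y : Fin 4 → ℝ | ∀ i, 0 ≤ y i} = ⋂ i, {y | 0 ≤ y i} := by ext; simp
      rw [this]
      exact isClosed_iInter fun i => isClosed_le continuous_const (continuous_apply i)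
    have h2 : IsClosed {y : Fin 4 → ℝ | y 0 + y 1 + y 2 + y 3 ≤ 9} :=
      isClosed_le (by fun_prop) continuous_const
    exact h1.inter h2
  refine (isCompact_Icc (a := (fun _ => 0 : Fin 4 → ℝ)) (b := fun _ => 9)).of_isClosed_subset
    hcl ?_
  rintro y ⟨hy, hy'⟩
  have h0 := hy 0; have h1 := hy 1; have h2 := hy 2; have h3 := hy 3
  refine ⟨fun i => hy i, fun i => ?_⟩
  fin_cases i <;> simp <;> linarith

/-- Every residue class mod 72 is represented by a small nonnegative vector. -/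
lemma reps : ∀ c : Fin 72, ∃ a b d e : Fin 6, a.1 + b.1 + d.1 + e.1 ≤ 5 ∧
    (a.1 + 20 * b.1 + 47 * d.1 + 63 * e.1) % 72 = c.1 := by
  decide +kernel

lemma covering_K0 : IsCoveringBody LZ K0 := by
  refine ⟨isCompact_K0, convex_K0, fun y => ?_⟩
  set z : Fin 4 → ℤ := fun i => ⌊y i⌋ with hz
  set c : ℤ := (z 0 + 20 * z 1 + 47 * z 2 + 63 * z 3) % 72 with hc
  have hc0 : 0 ≤ c := Int.emod_nonneg _ (by norm_num)
  have hc1 : c < 72 := Int.emod_lt_of_pos _ (by norm_num)
  obtain ⟨a, b, d, e, hsum, hcl⟩ := reps ⟨c.toNat, by omega⟩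
  have hcl' : (a.1 + 20 * b.1 + 47 * d.1 + 63 * e.1) % 72 = c.toNat := hcl
  have hsumR : (a.1 : ℝ) + b.1 + d.1 + e.1 ≤ 5 := by exact_mod_cast hsum
  have f0 := Int.fract_nonneg (y 0); have f1 := Int.fract_nonneg (y 1)
  have f2 := Int.fract_nonneg (y 2); have f3 := Int.fract_nonneg (y 3)
  have g0 := Int.fract_lt_one (y 0); have g1 := Int.fract_lt_one (y 1)
  have g2 := Int.fract_lt_one (y 2); have g3 := Int.fract_lt_one (y 3)
  refine ⟨![a.1 + Int.fract (y 0), b.1 + Int.fract (y 1), d.1 + Int.fract (y 2),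
    e.1 + Int.fract (y 3)], ⟨?_, ?_⟩,
    fun i => ((![z 0 - a.1, z 1 - b.1, z 2 - d.1, z 3 - e.1] : Fin 4 → ℤ) i : ℝ),
    ⟨![z 0 - a.1, z 1 - b.1, z 2 - d.1, z 3 - e.1], ?_, rfl⟩, ?_⟩
  · intro i
    fin_cases i <;> simp <;> positivity
  · simp; linarith
  · have h5 : (72 : ℤ) ∣ (z 0 - a.1) + 20 * (z 1 - b.1) + 47 * (z 2 - d.1) + 63 * (z 3 - e.1) := by
      omega
    simpa using h5
  · ext i
    have key : ∀ (t : ℝ) (m : ℕ), (m : ℝ) + Int.fract t + ((⌊t⌋ - (m : ℤ) : ℤ) : ℝ) = t := by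
      intro t m
      rw [Int.fract]
      push_cast
      ring
    fin_cases i
    · exact key (y 0) a.1
    · exact key (y 1) b.1
    · exact key (y 2) d.1
    · exact key (y 3) e.1

/-- Uniqueness of a small representative `r` of its residue class. -/
def Uniq (r : Fin 4 → ℕ) : Prop :=
  r 0 + r 1 + r 2 + r 3 ≤ 5 ∧ ∀ a b c d : ℕ, a + b + c + d ≤ 5 →
    (a + 20 * b + 47 * c + 63 * d) % 72 = (r 0 + 20 * r 1 + 47 * r 2 + 63 * r 3) % 72 →
    a = r 0 ∧ b = r 1 ∧ c = r 2 ∧ d = r 3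

lemma uniq_point {r : Fin 4 → ℕ} (hr : Uniq r) {f : Fin 4 → ℝ}
    (h1 : ∀ i, f i < 1) (h3 : 3 < f 0 + f 1 + f 2 + f 3) :
    ∀ v ∈ LZ, (fun i => (r i : ℝ) + f i) - v ∈ K0 → v = 0 := by
  rintro v ⟨z, hz, rfl⟩ ⟨hp, hs⟩
  have hnn : ∀ i, 0 ≤ (r i : ℤ) - z i := by
    intro i
    have h := hp i
    simp only [Pi.sub_apply] at h
    have : (-1 : ℝ) < (r i : ℝ) - z i := by linarith [h1 i]
    have : (-1 : ℤ) < (r i : ℤ) - z i := by exact_mod_cast this
    omega
  have hsum : ((r 0 : ℤ) - z 0) + (r 1 - z 1) + (r 2 - z 2) + (r 3 - z 3) ≤ 5 := by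
    simp only [Pi.sub_apply] at hs
    have : (((r 0 : ℤ) - z 0) + (r 1 - z 1) + (r 2 - z 2) + (r 3 - z 3) : ℝ) < 6 := by
      push_cast; linarith
    have : ((r 0 : ℤ) - z 0) + (r 1 - z 1) + (r 2 - z 2) + (r 3 - z 3) < 6 := by
      exact_mod_cast this
    omega
  obtain ⟨a0, e0⟩ := Int.eq_ofNat_of_zero_le (hnn 0)
  obtain ⟨a1, e1⟩ := Int.eq_ofNat_of_zero_le (hnn 1)
  obtain ⟨a2, e2⟩ := Int.eq_ofNat_of_zero_le (hnn 2)
  obtain ⟨a3, e3⟩ := Int.eq_ofNat_of_zero_le (hnn 3)
  obtain ⟨k, hk⟩ := hz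
  rw [e0, e1, e2, e3] at hsum
  have hs5 : a0 + a1 + a2 + a3 ≤ 5 := by exact_mod_cast hsum
  have hmod : (a0 + 20 * a1 + 47 * a2 + 63 * a3) % 72 =
      (r 0 + 20 * r 1 + 47 * r 2 + 63 * r 3) % 72 := by
    have h6 : ((a0 + 20 * a1 + 47 * a2 + 63 * a3 : ℕ) : ℤ) =
        ((r 0 + 20 * r 1 + 47 * r 2 + 63 * r 3 : ℕ) : ℤ) - 72 * k := by
      push_cast
      linarith
    omega
  obtain ⟨q0, q1, q2, q3⟩ := hr.2 a0 a1 a2 a3 hs5 hmod
  have z0 : z 0 = 0 := by rw [q0] at e0; linarith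
  have z1 : z 1 = 0 := by rw [q1] at e1; linarith
  have z2 : z 2 = 0 := by rw [q2] at e2; linarith
  have z3 : z 3 = 0 := by rw [q3] at e3; linarith
  ext i
  fin_cases i
  · simp [z0]
  · simp [z1]
  · simp [z2]
  · simp [z3]

/-- All points `r + f` with `f` in the unit cube and coordinate sum at least `3` belong to every
covering body inside `K0`. -/
lemma corner_mem {K : Set (Fin 4 → ℝ)} (hK : IsCoveringBody LZ K) (hsub : K ⊆ K0)
    {r : Fin 4 → ℕ} (hr : Uniq r) {f : Fin 4 → ℝ} (_h0 : ∀ i, 0 ≤ f i)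
    (h1 : ∀ i, f i ≤ 1) (h3 : 3 ≤ f 0 + f 1 + f 2 + f 3) :
    (fun i => (r i : ℝ) + f i) ∈ K := by
  have hcl : IsClosed K := hK.1.isClosed
  have hcont : Continuous (fun ε : ℝ => (fun i => (r i : ℝ) + ((1 - ε) * f i + ε * (7 / 8)) :
      Fin 4 → ℝ)) := by fun_prop
  have hev : ∀ᶠ ε in nhdsWithin (0 : ℝ) (Ioi 0),
      (fun i => (r i : ℝ) + ((1 - ε) * f i + ε * (7 / 8)) : Fin 4 → ℝ) ∈ K := by
    have h2 : Ioo (0 : ℝ) 1 ∈ nhdsWithin (0 : ℝ) (Ioi 0) := Ioo_mem_nhdsGT (by norm_num)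
    filter_upwards [h2] with ε hε
    refine mem_of_unique hK hsub (uniq_point hr ?_ ?_)
    · intro i
      have := mul_le_mul_of_nonneg_left (h1 i) (sub_nonneg.2 hε.2.le)
      linarith [hε.1]
    · have := mul_le_mul_of_nonneg_left h3 (sub_nonneg.2 hε.2.le)
      linarith [hε.1]
  have hlim : Filter.Tendsto (fun ε : ℝ => (fun i => (r i : ℝ) + ((1 - ε) * f i + ε * (7 / 8)) :
      Fin 4 → ℝ)) (nhdsWithin (0 : ℝ) (Ioi 0)) (nhds (fun i => (r i : ℝ) + f i)) := by
    have := (hcont.tendsto 0).mono_left (nhdsWithin_le_nhds (s := Ioi (0 : ℝ)))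
    simpa using this
  exact hcl.mem_of_tendsto hlim hev

lemma uO : Uniq ![0, 0, 0, 0] := by
  refine ⟨by simp, ?_⟩
  have : ∀ a b c d : Fin 6, a.1 + b.1 + c.1 + d.1 ≤ 5 →
      (a.1 + 20 * b.1 + 47 * c.1 + 63 * d.1) % 72 = 0 % 72 →
      a.1 = 0 ∧ b.1 = 0 ∧ c.1 = 0 ∧ d.1 = 0 := by
    decide +kernel
  intro a b c d h e
  exact this ⟨a, by omega⟩ ⟨b, by omega⟩ ⟨c, by omega⟩ ⟨d, by omega⟩ h (by simpa using e)

lemma uB : Uniq ![0, 5, 0, 0] := by
  refine ⟨by simp, ?_⟩
  have : ∀ a b c d : Fin 6, a.1 + b.1 + c.1 + d.1 ≤ 5 →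
      (a.1 + 20 * b.1 + 47 * c.1 + 63 * d.1) % 72 = 100 % 72 →
      a.1 = 0 ∧ b.1 = 5 ∧ c.1 = 0 ∧ d.1 = 0 := by
    decide +kernel
  intro a b c d h e
  exact this ⟨a, by omega⟩ ⟨b, by omega⟩ ⟨c, by omega⟩ ⟨d, by omega⟩ h (by simpa using e)

lemma uC : Uniq ![0, 0, 5, 0] := by
  refine ⟨by simp, ?_⟩
  have : ∀ a b c d : Fin 6, a.1 + b.1 + c.1 + d.1 ≤ 5 →
      (a.1 + 20 * b.1 + 47 * c.1 + 63 * d.1) % 72 = 235 % 72 →
      a.1 = 0 ∧ b.1 = 0 ∧ c.1 = 5 ∧ d.1 = 0 := by
    decide +kernel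
  intro a b c d h e
  exact this ⟨a, by omega⟩ ⟨b, by omega⟩ ⟨c, by omega⟩ ⟨d, by omega⟩ h (by simpa using e)

lemma uD : Uniq ![0, 0, 0, 5] := by
  refine ⟨by simp, ?_⟩
  have : ∀ a b c d : Fin 6, a.1 + b.1 + c.1 + d.1 ≤ 5 →
      (a.1 + 20 * b.1 + 47 * c.1 + 63 * d.1) % 72 = 315 % 72 →
      a.1 = 0 ∧ b.1 = 0 ∧ c.1 = 0 ∧ d.1 = 5 := by
    decide +kernel
  intro a b c d h e
  exact this ⟨a, by omega⟩ ⟨b, by omega⟩ ⟨c, by omega⟩ ⟨d, by omega⟩ h (by simpa using e)

lemma uX : Uniq ![3, 0, 2, 0] := by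
  refine ⟨by simp, ?_⟩
  have : ∀ a b c d : Fin 6, a.1 + b.1 + c.1 + d.1 ≤ 5 →
      (a.1 + 20 * b.1 + 47 * c.1 + 63 * d.1) % 72 = 97 % 72 →
      a.1 = 3 ∧ b.1 = 0 ∧ c.1 = 2 ∧ d.1 = 0 := by
    decide +kernel
  intro a b c d h e
  exact this ⟨a, by omega⟩ ⟨b, by omega⟩ ⟨c, by omega⟩ ⟨d, by omega⟩ h (by simpa using e)

lemma uY : Uniq ![3, 0, 0, 2] := by
  refine ⟨by simp, ?_⟩
  have : ∀ a b c d : Fin 6, a.1 + b.1 + c.1 + d.1 ≤ 5 →
      (a.1 + 20 * b.1 + 47 * c.1 + 63 * d.1) % 72 = 129 % 72 →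
      a.1 = 3 ∧ b.1 = 0 ∧ c.1 = 0 ∧ d.1 = 2 := by
    decide +kernel
  intro a b c d h e
  exact this ⟨a, by omega⟩ ⟨b, by omega⟩ ⟨c, by omega⟩ ⟨d, by omega⟩ h (by simpa using e)

/-- Convex combinations of five points. -/
lemma comb5 {C : Set (Fin 4 → ℝ)} (hc : Convex ℝ C) {p q r s t : Fin 4 → ℝ} (hp : p ∈ C)
    (hq : q ∈ C) (hr : r ∈ C) (hs : s ∈ C) (ht : t ∈ C) (a b c d e : ℝ) (ha : 0 ≤ a)
    (hb : 0 ≤ b) (hc' : 0 ≤ c) (hd : 0 ≤ d) (he : 0 ≤ e) (h1 : a + b + c + d + e = 1)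
    (y : Fin 4 → ℝ) (hy : ∀ i, y i = a * p i + b * q i + c * r i + d * s i + e * t i) :
    y ∈ C := by
  have h := hc.sum_mem (t := Finset.univ) (w := ![a, b, c, d, e]) (z := ![p, q, r, s, t])
    (by intro i _; fin_cases i <;> assumption)
    (by simp [Fin.sum_univ_succ]; linarith)
    (by intro i _; fin_cases i <;> assumption)
  convert h using 1
  ext i
  rw [hy i]
  simp [Fin.sum_univ_succ]
  ring

/-- A point all of whose small axis-parallel translates lie in a convex set is interior. -/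
lemma interior_of_cross {n : ℕ} {C : Set (Fin n → ℝ)} (hc : Convex ℝ C) {v : Fin n → ℝ} {δ : ℝ}
    (hδ : 0 < δ) (hv : v ∈ C) (h1 : ∀ i, v + Pi.single i δ ∈ C) (h2 : ∀ i, v - Pi.single i δ ∈ C) :
    v ∈ interior C := by
  rw [mem_interior]
  refine ⟨{y | ∑ i, |y i - v i| < δ}, ?_, isOpen_lt (by fun_prop) continuous_const, by simpa using hδ⟩
  intro y hy
  have hy' : ∑ i, |y i - v i| < δ := hy
  have h := hc.sum_mem (t := (Finset.univ : Finset (Option (Fin n))))
    (w := fun o => o.elim (1 - ∑ i, |y i - v i| / δ) (fun i => |y i - v i| / δ))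
    (z := fun o => o.elim v
      (fun i => if 0 ≤ y i - v i then v + Pi.single i δ else v - Pi.single i δ))
    (by
      intro o _
      cases o with
      | none =>
        simp only [Option.elim]
        rw [← Finset.sum_div, sub_nonneg, div_le_one hδ]
        exact hy'.le
      | some i => simp only [Option.elim]; positivity)
    (by simp [Fintype.sum_option])
    (by
      intro o _
      cases o with
      | none => exact hv
      | some i =>
        simp only [Option.elim]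
        split_ifs
        · exact h1 i
        · exact h2 i)
  convert h using 1
  have h3 : ∀ i, (|y i - v i| / δ) •
      (if 0 ≤ y i - v i then v + Pi.single i δ else v - Pi.single i δ) =
      (|y i - v i| / δ) • v + Pi.single i (y i - v i) := by
    intro i
    split_ifs with h4
    · rw [smul_add, abs_of_nonneg h4, ← Pi.single_smul]
      congr 2
      rw [smul_eq_mul]
      field_simp
    · rw [smul_sub, abs_of_neg (not_le.1 h4), ← Pi.single_smul, sub_eq_add_neg, ← Pi.single_neg]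
      congr 2
      rw [smul_eq_mul]
      field_simp
  simp only [Fintype.sum_option, Option.elim]
  simp only [h3, Finset.sum_add_distrib, ← Finset.sum_smul]
  ext j
  simp only [Pi.add_apply, Pi.smul_apply, smul_eq_mul, Finset.sum_apply, Pi.single_apply]
  rw [Finset.sum_ite_eq]
  simp
  ring

/-- The four nonzero lattice vectors of the example, together with `0`. -/
def S : Set (Fin 4 → ℝ) :=
  {![0, 0, 0, 0], ![1, -1, -4, 1], ![-1, 0, -4, 3], ![0, 3, -3, -1], ![2, 1, -2, 0]}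

lemma S_sub : S ⊆ LZ := by
  intro y hy
  simp only [S, mem_insert_iff, mem_singleton_iff] at hy
  rcases hy with rfl | rfl | rfl | rfl | rfl
  · exact ⟨![0, 0, 0, 0], by decide, by ext i; fin_cases i <;> simp⟩
  · exact ⟨![1, -1, -4, 1], by decide, by ext i; fin_cases i <;> simp⟩
  · exact ⟨![-1, 0, -4, 3], by decide, by ext i; fin_cases i <;> simp⟩
  · exact ⟨![0, 3, -3, -1], by decide, by ext i; fin_cases i <;> simp⟩
  · exact ⟨![2, 1, -2, 0], by decide, by ext i; fin_cases i <;> simp⟩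

lemma interior_S : (interior (convexHull ℝ S)).Nonempty := by
  have hsub := subset_convexHull ℝ S
  have m0 : (![0, 0, 0, 0] : Fin 4 → ℝ) ∈ convexHull ℝ S := hsub (by simp [S])
  have m1 : (![1, -1, -4, 1] : Fin 4 → ℝ) ∈ convexHull ℝ S := hsub (by simp [S])
  have m2 : (![-1, 0, -4, 3] : Fin 4 → ℝ) ∈ convexHull ℝ S := hsub (by simp [S])
  have m3 : (![0, 3, -3, -1] : Fin 4 → ℝ) ∈ convexHull ℝ S := hsub (by simp [S])
  have m4 : (![2, 1, -2, 0] : Fin 4 → ℝ) ∈ convexHull ℝ S := hsub (by simp [S])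
  have key := comb5 (convex_convexHull ℝ S) m0 m1 m2 m3 m4
  refine ⟨![2 / 5, 3 / 5, (-13) / 5, 3 / 5], interior_of_cross (convex_convexHull ℝ S) (δ := 1 / 4) (by norm_num) ?_ ?_ ?_⟩
  · exact key (1 / 5) (1 / 5) (1 / 5) (1 / 5) (1 / 5) (by norm_num) (by norm_num) (by norm_num)
      (by norm_num) (by norm_num) (by norm_num) _ (by intro i; fin_cases i <;> norm_num)
  · intro i
    fin_cases i
    · exact key (71 / 480) (263 / 1440) (91 / 480) (109 / 720) (473 / 1440) (by norm_num) (by norm_num)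
        (by norm_num) (by norm_num) (by norm_num) (by norm_num) _
        (by intro i; fin_cases i <;> norm_num)
    · exact key (19 / 120) (37 / 360) (29 / 120) (41 / 180) (97 / 360) (by norm_num) (by norm_num)
        (by norm_num) (by norm_num) (by norm_num) (by norm_num) _
        (by intro i; fin_cases i <;> norm_num)
    · exact key (121 / 480) (193 / 1440) (101 / 480) (119 / 720) (343 / 1440) (by norm_num) (by norm_num)
        (by norm_num) (by norm_num) (by norm_num) (by norm_num) _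
        (by intro i; fin_cases i <;> norm_num)
    · exact key (27 / 160) (17 / 160) (47 / 160) (11 / 80) (47 / 160) (by norm_num) (by norm_num)
        (by norm_num) (by norm_num) (by norm_num) (by norm_num) _
        (by intro i; fin_cases i <;> norm_num)
  · intro i
    fin_cases i
    · exact key (121 / 480) (313 / 1440) (101 / 480) (179 / 720) (103 / 1440) (by norm_num) (by norm_num)
        (by norm_num) (by norm_num) (by norm_num) (by norm_num) _
        (by intro i; fin_cases i <;> norm_num)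
    · exact key (29 / 120) (107 / 360) (19 / 120) (31 / 180) (47 / 360) (by norm_num) (by norm_num)
        (by norm_num) (by norm_num) (by norm_num) (by norm_num) _
        (by intro i; fin_cases i <;> norm_num)
    · exact key (71 / 480) (383 / 1440) (91 / 480) (169 / 720) (233 / 1440) (by norm_num) (by norm_num)
        (by norm_num) (by norm_num) (by norm_num) (by norm_num) _
        (by intro i; fin_cases i <;> norm_num)
    · exact key (37 / 160) (47 / 160) (17 / 160) (21 / 80) (17 / 160) (by norm_num) (by norm_num)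
        (by norm_num) (by norm_num) (by norm_num) (by norm_num) _
        (by intro i; fin_cases i <;> norm_num)

lemma extreme_S : (0 : Fin 4 → ℝ) ∈ (convexHull ℝ S).extremePoints ℝ := by
  have hsub : convexHull ℝ S ⊆ {y | y = 0 ∨ y 2 < 0} := by
    refine convexHull_min ?_ ?_
    · intro y hy
      simp only [S, mem_insert_iff, mem_singleton_iff] at hy
      rcases hy with rfl | rfl | rfl | rfl | rfl
      · left; ext i; fin_cases i <;> simp
      · right; simp
      · right; simp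
      · right; simp
      · right; simp
    · intro y hy z hz a b ha hb hab
      have hy2 : y 2 ≤ 0 := by rcases hy with rfl | h; exacts [le_refl _, h.le]
      have hz2 : z 2 ≤ 0 := by rcases hz with rfl | h; exacts [le_refl _, h.le]
      rcases ha.eq_or_lt with rfl | ha'
      · have : b = 1 := by linarith
        subst this
        simpa using hz
      rcases hb.eq_or_lt with rfl | hb'
      · have : a = 1 := by linarith
        subst this
        simpa using hy
      rcases hy with rfl | hy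
      · rcases hz with rfl | hz
        · left; simp
        · right
          simp only [Pi.add_apply, Pi.smul_apply, smul_eq_mul, Pi.zero_apply, mul_zero, zero_add]
          exact mul_neg_of_pos_of_neg hb' hz
      · right
        simp only [Pi.add_apply, Pi.smul_apply, smul_eq_mul]
        have := mul_neg_of_pos_of_neg ha' hy
        have := mul_nonpos_of_nonneg_of_nonpos hb hz2
        linarith
  refine ⟨subset_convexHull ℝ S ?_, ?_⟩
  · have : (0 : Fin 4 → ℝ) = ![0, 0, 0, 0] := by ext i; fin_cases i <;> simp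
    rw [this]; simp [S]
  · intro y hy z hz h
    obtain ⟨a, b, ha, hb, hab, e⟩ := h
    have e2 : a * y 2 + b * z 2 = 0 := by simpa using congrFun e 2
    rcases hsub hy with h1 | h1
    · exact h1
    · exfalso
      have h1' : y 2 < 0 := h1
      have hz2 : z 2 ≤ 0 := by rcases hsub hz with rfl | h; exacts [le_refl _, h.le]
      have := mul_neg_of_pos_of_neg ha h1'
      have := mul_nonpos_of_nonneg_of_nonpos hb.le hz2
      linarith

/-- **Counterexample in dimension 4.**  There are a full-rank lattice `Λ = A ℤ⁴`, a minimal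
covering body `K` for `Λ`, a full-dimensional lattice polytope `Q = conv S` (`S ⊆ Λ` finite), a
vector `x` with `Q + x ⊆ K` and a vertex `v` of `Q` such that the vertex `v + x` of `Q + x` lies
in the interior of `K`. -/
theorem result : ∃ (A : Matrix (Fin 4) (Fin 4) ℝ) (K S : Set (Fin 4 → ℝ)) (x v : Fin 4 → ℝ),
    A.det ≠ 0 ∧ IsMinimalCoveringBody (Lat A) K ∧ S.Finite ∧ S ⊆ Lat A ∧
    (interior (convexHull ℝ S)).Nonempty ∧ (∀ q ∈ convexHull ℝ S, q + x ∈ K) ∧
    v ∈ (convexHull ℝ S).extremePoints ℝ ∧ v + x ∈ interior K := by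
  obtain ⟨K, hK0, hK⟩ := exists_minimal isClosed_LZ covering_K0
  have hc := hK.1.2.1
  have cO := fun (f : Fin 4 → ℝ) h0 h1 h3 => corner_mem hK.1 hK0 uO (f := f) h0 h1 h3
  have cB := fun (f : Fin 4 → ℝ) h0 h1 h3 => corner_mem hK.1 hK0 uB (f := f) h0 h1 h3
  have cC := fun (f : Fin 4 → ℝ) h0 h1 h3 => corner_mem hK.1 hK0 uC (f := f) h0 h1 h3
  have cD := fun (f : Fin 4 → ℝ) h0 h1 h3 => corner_mem hK.1 hK0 uD (f := f) h0 h1 h3
  have cX := fun (f : Fin 4 → ℝ) h0 h1 h3 => corner_mem hK.1 hK0 uX (f := f) h0 h1 h3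
  have cY := fun (f : Fin 4 → ℝ) h0 h1 h3 => corner_mem hK.1 hK0 uY (f := f) h0 h1 h3
  have h4013 : (![4, 0, 1, 3] : Fin 4 → ℝ) ∈ K := by
    convert cY ![1, 0, 1, 1] (by intro i; fin_cases i <;> norm_num)
      (by intro i; fin_cases i <;> norm_num)
      (by show (3 : ℝ) ≤ 1 + 0 + 1 + 1; norm_num) using 1
    ext i; fin_cases i <;> norm_num
  have h1011 : (![1, 0, 1, 1] : Fin 4 → ℝ) ∈ K := by
    convert cO ![1, 0, 1, 1] (by intro i; fin_cases i <;> norm_num)
      (by intro i; fin_cases i <;> norm_num)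
      (by show (3 : ℝ) ≤ 1 + 0 + 1 + 1; norm_num) using 1
    ext i; fin_cases i <;> norm_num
  have h1016 : (![1, 0, 1, 6] : Fin 4 → ℝ) ∈ K := by
    convert cD ![1, 0, 1, 1] (by intro i; fin_cases i <;> norm_num)
      (by intro i; fin_cases i <;> norm_num)
      (by show (3 : ℝ) ≤ 1 + 0 + 1 + 1; norm_num) using 1
    ext i; fin_cases i <;> norm_num
  have h0111 : (![0, 1, 1, 1] : Fin 4 → ℝ) ∈ K := by
    convert cO ![0, 1, 1, 1] (by intro i; fin_cases i <;> norm_num)
      (by intro i; fin_cases i <;> norm_num)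
      (by show (3 : ℝ) ≤ 0 + 1 + 1 + 1; norm_num) using 1
    ext i; fin_cases i <;> norm_num
  have h0116 : (![0, 1, 1, 6] : Fin 4 → ℝ) ∈ K := by
    convert cD ![0, 1, 1, 1] (by intro i; fin_cases i <;> norm_num)
      (by intro i; fin_cases i <;> norm_num)
      (by show (3 : ℝ) ≤ 0 + 1 + 1 + 1; norm_num) using 1
    ext i; fin_cases i <;> norm_num
  have h1110 : (![1, 1, 1, 0] : Fin 4 → ℝ) ∈ K := by
    convert cO ![1, 1, 1, 0] (by intro i; fin_cases i <;> norm_num)
      (by intro i; fin_cases i <;> norm_num)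
      (by show (3 : ℝ) ≤ 1 + 1 + 1 + 0; norm_num) using 1
    ext i; fin_cases i <;> norm_num
  have h1610 : (![1, 6, 1, 0] : Fin 4 → ℝ) ∈ K := by
    convert cB ![1, 1, 1, 0] (by intro i; fin_cases i <;> norm_num)
      (by intro i; fin_cases i <;> norm_num)
      (by show (3 : ℝ) ≤ 1 + 1 + 1 + 0; norm_num) using 1
    ext i; fin_cases i <;> norm_num
  have h1160 : (![1, 1, 6, 0] : Fin 4 → ℝ) ∈ K := by
    convert cC ![1, 1, 1, 0] (by intro i; fin_cases i <;> norm_num)
      (by intro i; fin_cases i <;> norm_num)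
      (by show (3 : ℝ) ≤ 1 + 1 + 1 + 0; norm_num) using 1
    ext i; fin_cases i <;> norm_num
  have h1611 : (![1, 6, 1, 1] : Fin 4 → ℝ) ∈ K := by
    convert cB ![1, 1, 1, 1] (by intro i; fin_cases i <;> norm_num)
      (by intro i; fin_cases i <;> norm_num)
      (by show (3 : ℝ) ≤ 1 + 1 + 1 + 1; norm_num) using 1
    ext i; fin_cases i <;> norm_num
  have h1161 : (![1, 1, 6, 1] : Fin 4 → ℝ) ∈ K := by
    convert cC ![1, 1, 1, 1] (by intro i; fin_cases i <;> norm_num)
      (by intro i; fin_cases i <;> norm_num)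
      (by show (3 : ℝ) ≤ 1 + 1 + 1 + 1; norm_num) using 1
    ext i; fin_cases i <;> norm_num
  have h4131 : (![4, 1, 3, 1] : Fin 4 → ℝ) ∈ K := by
    convert cX ![1, 1, 1, 1] (by intro i; fin_cases i <;> norm_num)
      (by intro i; fin_cases i <;> norm_num)
      (by show (3 : ℝ) ≤ 1 + 1 + 1 + 1; norm_num) using 1
    ext i; fin_cases i <;> norm_num
  have h0161 : (![0, 1, 6, 1] : Fin 4 → ℝ) ∈ K := by
    convert cC ![0, 1, 1, 1] (by intro i; fin_cases i <;> norm_num)
      (by intro i; fin_cases i <;> norm_num)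
      (by show (3 : ℝ) ≤ 0 + 1 + 1 + 1; norm_num) using 1
    ext i; fin_cases i <;> norm_num
  have h1061 : (![1, 0, 6, 1] : Fin 4 → ℝ) ∈ K := by
    convert cC ![1, 0, 1, 1] (by intro i; fin_cases i <;> norm_num)
      (by intro i; fin_cases i <;> norm_num)
      (by show (3 : ℝ) ≤ 1 + 0 + 1 + 1; norm_num) using 1
    ext i; fin_cases i <;> norm_num
  have h1111 : (![1, 1, 1, 1] : Fin 4 → ℝ) ∈ K := by
    convert cO ![1, 1, 1, 1] (by intro i; fin_cases i <;> norm_num)
      (by intro i; fin_cases i <;> norm_num)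
      (by show (3 : ℝ) ≤ 1 + 1 + 1 + 1; norm_num) using 1
    ext i; fin_cases i <;> norm_num
  have h1116 : (![1, 1, 1, 6] : Fin 4 → ℝ) ∈ K := by
    convert cD ![1, 1, 1, 1] (by intro i; fin_cases i <;> norm_num)
      (by intro i; fin_cases i <;> norm_num)
      (by show (3 : ℝ) ≤ 1 + 1 + 1 + 1; norm_num) using 1
    ext i; fin_cases i <;> norm_num
  have p0 : (![2, 0, 1, 2] : Fin 4 → ℝ) ∈ K :=
    comb5 hc h4013 h1011 h1016 h4013 h4013 (1 / 3) (3 / 5) (1 / 15) (0) (0)
      (by norm_num) (by norm_num) (by norm_num) (by norm_num) (by norm_num) (by norm_num) _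
      (by intro i; fin_cases i <;> norm_num)
  have p1 : (![0, 1, 1, 4] : Fin 4 → ℝ) ∈ K :=
    comb5 hc h0111 h0116 h0111 h0111 h0111 (2 / 5) (3 / 5) (0) (0) (0)
      (by norm_num) (by norm_num) (by norm_num) (by norm_num) (by norm_num) (by norm_num) _
      (by intro i; fin_cases i <;> norm_num)
  have p2 : (![1, 4, 2, 0] : Fin 4 → ℝ) ∈ K :=
    comb5 hc h1110 h1610 h1160 h1110 h1110 (1 / 5) (3 / 5) (1 / 5) (0) (0)
      (by norm_num) (by norm_num) (by norm_num) (by norm_num) (by norm_num) (by norm_num) _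
      (by intro i; fin_cases i <;> norm_num)
  have p4 : (![3, 2, 3, 1] : Fin 4 → ℝ) ∈ K :=
    comb5 hc h1611 h1161 h4131 h1611 h1611 (1 / 5) (2 / 15) (2 / 3) (0) (0)
      (by norm_num) (by norm_num) (by norm_num) (by norm_num) (by norm_num) (by norm_num) _
      (by intro i; fin_cases i <;> norm_num)
  have v0p : (![2, 1, 5, 1] : Fin 4 → ℝ) ∈ K :=
    comb5 hc h1161 h4131 h1161 h1161 h1161 (2 / 3) (1 / 3) (0) (0) (0)
      (by norm_num) (by norm_num) (by norm_num) (by norm_num) (by norm_num) (by norm_num) _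
      (by intro i; fin_cases i <;> norm_num)
  have v0m : (![0, 1, 5, 1] : Fin 4 → ℝ) ∈ K :=
    comb5 hc h0161 h0111 h0161 h0161 h0161 (4 / 5) (1 / 5) (0) (0) (0)
      (by norm_num) (by norm_num) (by norm_num) (by norm_num) (by norm_num) (by norm_num) _
      (by intro i; fin_cases i <;> norm_num)
  have v1p : (![1, 2, 5, 1] : Fin 4 → ℝ) ∈ K :=
    comb5 hc h1611 h1161 h1611 h1611 h1611 (1 / 5) (4 / 5) (0) (0) (0)
      (by norm_num) (by norm_num) (by norm_num) (by norm_num) (by norm_num) (by norm_num) _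
      (by intro i; fin_cases i <;> norm_num)
  have v1m : (![1, 0, 5, 1] : Fin 4 → ℝ) ∈ K :=
    comb5 hc h1011 h1061 h1011 h1011 h1011 (1 / 5) (4 / 5) (0) (0) (0)
      (by norm_num) (by norm_num) (by norm_num) (by norm_num) (by norm_num) (by norm_num) _
      (by intro i; fin_cases i <;> norm_num)
  have v2p : (![1, 1, 6, 1] : Fin 4 → ℝ) ∈ K :=
    comb5 hc h1161 h1161 h1161 h1161 h1161 (1) (0) (0) (0) (0)
      (by norm_num) (by norm_num) (by norm_num) (by norm_num) (by norm_num) (by norm_num) _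
      (by intro i; fin_cases i <;> norm_num)
  have v2m : (![1, 1, 4, 1] : Fin 4 → ℝ) ∈ K :=
    comb5 hc h1111 h1161 h1111 h1111 h1111 (2 / 5) (3 / 5) (0) (0) (0)
      (by norm_num) (by norm_num) (by norm_num) (by norm_num) (by norm_num) (by norm_num) _
      (by intro i; fin_cases i <;> norm_num)
  have v3p : (![1, 1, 5, 2] : Fin 4 → ℝ) ∈ K :=
    comb5 hc h1116 h1161 h1116 h1116 h1116 (1 / 5) (4 / 5) (0) (0) (0)
      (by norm_num) (by norm_num) (by norm_num) (by norm_num) (by norm_num) (by norm_num) _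
      (by intro i; fin_cases i <;> norm_num)
  have v3m : (![1, 1, 5, 0] : Fin 4 → ℝ) ∈ K :=
    comb5 hc h1110 h1160 h1110 h1110 h1110 (1 / 5) (4 / 5) (0) (0) (0)
      (by norm_num) (by norm_num) (by norm_num) (by norm_num) (by norm_num) (by norm_num) _
      (by intro i; fin_cases i <;> norm_num)
  have pv : (![1, 1, 5, 1] : Fin 4 → ℝ) ∈ K :=
    comb5 hc h1111 h1161 h1111 h1111 h1111 (1 / 5) (4 / 5) (0) (0) (0)
      (by norm_num) (by norm_num) (by norm_num) (by norm_num) (by norm_num) (by norm_num) _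
      (by intro i; fin_cases i <;> norm_num)
  have key : ∀ {a b : Fin 4 → ℝ}, a ∈ K → (∀ i, b i = a i) → b ∈ K := by
    intro a b ha h
    rw [show b = a from funext h]
    exact ha
  refine ⟨A, K, S, ![1, 1, 5, 1], 0, by rw [det_A]; norm_num, by rw [Lat_A]; exact hK,
    by unfold S; exact toFinite _, by rw [Lat_A]; exact S_sub, interior_S, ?_, extreme_S, ?_⟩
  · have hconv : Convex ℝ {q : Fin 4 → ℝ | q + ![1, 1, 5, 1] ∈ K} := by
      intro y hy z hz a b ha hb hab
      have := hc hy hz ha hb hab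
      have e : a • (y + ![1, 1, 5, 1]) + b • (z + ![1, 1, 5, 1]) =
          a • y + b • z + (![1, 1, 5, 1] : Fin 4 → ℝ) := by
        rw [smul_add, smul_add, add_add_add_comm, ← add_smul, hab, one_smul]
      rw [e] at this
      exact this
    refine fun q hq => convexHull_min (s := S) ?_ hconv hq
    intro y hy
    simp only [S, mem_insert_iff, mem_singleton_iff] at hy
    rcases hy with rfl | rfl | rfl | rfl | rfl
    · exact key pv (by intro i; fin_cases i <;> norm_num)
    · exact key p0 (by intro i; fin_cases i <;> norm_num)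
    · exact key p1 (by intro i; fin_cases i <;> norm_num)
    · exact key p2 (by intro i; fin_cases i <;> norm_num)
    · exact key p4 (by intro i; fin_cases i <;> norm_num)
  · rw [zero_add]
    refine interior_of_cross hc (δ := 1) one_pos pv ?_ ?_
    · intro i
      fin_cases i
      · exact key v0p (by intro i; fin_cases i <;> norm_num)
      · exact key v1p (by intro i; fin_cases i <;> norm_num)
      · exact key v2p (by intro i; fin_cases i <;> norm_num)
      · exact key v3p (by intro i; fin_cases i <;> norm_num)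
    · intro i
      fin_cases i
      · exact key v0m (by intro i; fin_cases i <;> norm_num)
      · exact key v1m (by intro i; fin_cases i <;> norm_num)
      · exact key v2m (by intro i; fin_cases i <;> norm_num)
      · exact key v3m (by intro i; fin_cases i <;> norm_num)

end Pool.Agent.Results.MP_4f7bfc_co.InteriorVertex
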